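import Mathlib
import Pool.Agent.V11103.PcDefs
import Pool.Agent.V11103.PcDraw
import Pool.Agent.V11103.PcConn

set_option autoImplicit false

open Filter Topology

namespace Pool.Agent.Results.MP_6bdc24_co.LinearlyManyPeripheralCycles

open Pool.Agent.V11103.Pc

lemma card_V (k : ℕ) : Fintype.card (V k) = 25 + k := by
  rw [Fintype.card_sum, Fintype.card_fin]
  rfl

/-- For every `n ≥ 25` there is a simple 3-edge-connected graph on `n` vertices with a `K_{3,3}` minor (so it is
not planar) which has an embedding in the torus of representativity at least `5`, and at most `2 ^ 26 + 3 n`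
peripheral cycles. Hence for every `c > 1` there is such a graph with fewer than `c ^ n` peripheral cycles. -/
theorem result :
    (∀ c : ℝ, 1 < c → ∃ (V : Type) (_ : Fintype V) (G : SimpleGraph V),
      G.IsEdgeConnected 3 ∧ HasK33Minor G ∧ (∃ D : Drawing G, D.Representativity 5) ∧
      ({S : Finset V | IsPeripheral G S}.ncard : ℝ) < c ^ Fintype.card V) ∧
    (∀ n : ℕ, 25 ≤ n → ∃ (V : Type) (_ : Fintype V) (G : SimpleGraph V),
      Fintype.card V = n ∧ G.IsEdgeConnected 3 ∧ HasK33Minor G ∧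
      (∃ D : Drawing G, D.Representativity 5) ∧
      {S : Finset V | IsPeripheral G S}.ncard ≤ 2 ^ 26 + 3 * n) := by
  constructor
  · intro c hc
    have h1 : Tendsto (fun k : ℕ => ((k : ℝ) ^ 0) / c ^ k) atTop (𝓝 0) :=
      tendsto_pow_const_div_const_pow_of_one_lt 0 hc
    have h2 : Tendsto (fun k : ℕ => ((k : ℝ) ^ 1) / c ^ k) atTop (𝓝 0) :=
      tendsto_pow_const_div_const_pow_of_one_lt 1 hc
    have h3 : Tendsto (fun k : ℕ => 2 ^ 26 * (((k : ℝ) ^ 0) / c ^ k) + 3 * (((k : ℝ) ^ 1) / c ^ k))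
        atTop (𝓝 (2 ^ 26 * 0 + 3 * 0)) := (h1.const_mul _).add (h2.const_mul _)
    rw [mul_zero, mul_zero, add_zero] at h3
    obtain ⟨k, hk⟩ := ((tendsto_order.1 h3).2 1 one_pos).exists
    refine ⟨V k, inferInstance, G k, conn k, k33 k, ⟨drawing k, rep k⟩, ?_⟩
    rw [card_V]
    have hck : 0 < c ^ k := by positivity
    have h4 : (2 ^ 26 + 3 * (k : ℝ)) < c ^ k := by
      have h5 : 2 ^ 26 * (((k : ℝ) ^ 0) / c ^ k) + 3 * (((k : ℝ) ^ 1) / c ^ k) =
          (2 ^ 26 + 3 * (k : ℝ)) / c ^ k := by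
        rw [pow_zero, pow_one]; ring
      rw [h5, div_lt_one hck] at hk
      exact hk
    have h6 : (({S : Finset (V k) | IsPeripheral (G k) S}.ncard : ℕ) : ℝ) ≤ 2 ^ 26 + 3 * (k : ℝ) := by
      exact_mod_cast count k
    have h7 : c ^ k ≤ c ^ (25 + k) := pow_le_pow_right₀ hc.le (by omega)
    linarith
  · intro n hn
    obtain ⟨k, rfl⟩ := Nat.exists_eq_add_of_le hn
    exact ⟨V k, inferInstance, G k, card_V k, conn k, k33 k, ⟨drawing k, rep k⟩,
      (count k).trans (by omega)⟩

end Pool.Agent.Results.MP_6bdc24_co.LinearlyManyPeripheralCycles
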